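import Mathlib

namespace Pool.Agent.NH73.SG

/-- every cell has exactly one chosen side -/
def One (n : ℕ) (h v : ℕ → ℕ → ℕ) : Prop :=
  ∀ x y, x < n → y < n → h x y + h x (y + 1) + v x y + v (x + 1) y = 1

/-- every 2 by 2 block has a chosen segment on its boundary -/
def Two (n : ℕ) (h v : ℕ → ℕ → ℕ) : Prop :=
  ∀ x y, x + 2 ≤ n → y + 2 ≤ n →
    1 ≤ h x y + h (x + 1) y + h x (y + 2) + h (x + 1) (y + 2) +
      v x y + v x (y + 1) + v (x + 2) y + v (x + 2) (y + 1)

lemma chain {n : ℕ} (hn : 3 ≤ n) {h v : ℕ → ℕ → ℕ} (h1 : One n h v) (h2 : Two n h v)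
    (h10 : 1 ≤ v 1 0) : 1 ≤ v 0 1 + h (n - 2) n := by
  by_contra hcon
  have v01 : v 0 1 = 0 := by omega
  have htop : h (n - 2) n = 0 := by omega
  have key : ∀ k, k + 3 ≤ n → v (k + 1) k = 1 ∧ h k (k + 2) = 1 := by
    intro k
    induction k with
    | zero =>
      intro _
      have a := h1 0 0 (by omega) (by omega)
      have b := h1 1 0 (by omega) (by omega)
      have c := h1 0 1 (by omega) (by omega)
      have d := h1 1 1 (by omega) (by omega)
      have e := h2 0 0 (by omega) (by omega)
      simp only [Nat.zero_add, Nat.reduceAdd] at a b c d e ⊢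
      omega
    | succ k ih =>
      intro hk
      obtain ⟨i1, i2⟩ := ih (by omega)
      have a0 := h1 (k + 1) k (by omega) (by omega)
      have a1 := h1 k (k + 1) (by omega) (by omega)
      have a2 := h1 (k + 1) (k + 1) (by omega) (by omega)
      have a3 := h1 (k + 1) (k + 2) (by omega) (by omega)
      have a4 := h1 k (k + 2) (by omega) (by omega)
      have a5 := h1 (k + 2) (k + 1) (by omega) (by omega)
      have a6 := h1 (k + 2) (k + 2) (by omega) (by omega)
      have e := h2 k (k + 1) (by omega) (by omega)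
      have f := h2 (k + 1) (k + 1) (by omega) (by omega)
      simp only [Nat.add_assoc, Nat.reduceAdd] at *
      omega
  obtain ⟨m, rfl⟩ := Nat.exists_eq_add_of_le hn
  have i := key m (by omega)
  obtain ⟨i1, i2⟩ := i
  have e1 : 3 + m - 2 = m + 1 := by omega
  have e2 : 3 + m = m + 3 := by omega
  rw [e1, e2] at htop
  have a0 := h1 (m + 1) m (by omega) (by omega)
  have a1 := h1 m (m + 1) (by omega) (by omega)
  have a2 := h1 (m + 1) (m + 1) (by omega) (by omega)
  have a3 := h1 (m + 1) (m + 2) (by omega) (by omega)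
  have a4 := h1 m (m + 2) (by omega) (by omega)
  have a5 := h1 (m + 2) (m + 1) (by omega) (by omega)
  have a6 := h1 (m + 2) (m + 2) (by omega) (by omega)
  have e := h2 m (m + 1) (by omega) (by omega)
  have f := h2 (m + 1) (m + 1) (by omega) (by omega)
  simp only [Nat.add_assoc, Nat.reduceAdd] at *
  omega

lemma One.swap {n : ℕ} {h v : ℕ → ℕ → ℕ} (h1 : One n h v) :
    One n (fun x y => v y x) (fun x y => h y x) := by
  intro x y hx hy
  have := h1 y x hy hx
  show v y x + v (y + 1) x + h y x + h y (x + 1) = 1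
  omega

lemma Two.swap {n : ℕ} {h v : ℕ → ℕ → ℕ} (h2 : Two n h v) :
    Two n (fun x y => v y x) (fun x y => h y x) := by
  intro x y hx hy
  have := h2 y x hy hx
  show 1 ≤ v y x + v y (x + 1) + v (y + 2) x + v (y + 2) (x + 1) +
    h y x + h (y + 1) x + h y (x + 2) + h (y + 1) (x + 2)
  omega

lemma One.mirror {n : ℕ} {h v : ℕ → ℕ → ℕ} (h1 : One n h v) :
    One n (fun x y => h (n - 1 - x) y) (fun x y => v (n - x) y) := by
  intro x y hx hy
  have := h1 (n - 1 - x) y (by omega) hy
  show h (n - 1 - x) y + h (n - 1 - x) (y + 1) + v (n - x) y + v (n - (x + 1)) y = 1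
  have e1 : n - 1 - x + 1 = n - x := by omega
  have e2 : n - (x + 1) = n - 1 - x := by omega
  rw [e1] at this
  rw [e2]
  omega

lemma Two.mirror {n : ℕ} {h v : ℕ → ℕ → ℕ} (h2 : Two n h v) :
    Two n (fun x y => h (n - 1 - x) y) (fun x y => v (n - x) y) := by
  intro x y hx hy
  have := h2 (n - 2 - x) y (by omega) hy
  show 1 ≤ h (n - 1 - x) y + h (n - 1 - (x + 1)) y + h (n - 1 - x) (y + 2) +
    h (n - 1 - (x + 1)) (y + 2) + v (n - x) y + v (n - x) (y + 1) + v (n - (x + 2)) y +
      v (n - (x + 2)) (y + 1)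
  have e1 : n - 2 - x + 1 = n - 1 - x := by omega
  have e2 : n - 2 - x + 2 = n - x := by omega
  have e3 : n - 1 - (x + 1) = n - 2 - x := by omega
  have e4 : n - (x + 2) = n - 2 - x := by omega
  rw [e1, e2] at this
  rw [e3, e4]
  omega

/-- the corner at the origin forces one of six boundary segments -/
lemma corner {n : ℕ} (hn : 3 ≤ n) {h v : ℕ → ℕ → ℕ} (h1 : One n h v) (h2 : Two n h v) :
    1 ≤ h 0 0 + v 0 0 + v 0 1 + h (n - 2) n + h 1 0 + v n (n - 2) := by
  have a := h1 0 0 (by omega) (by omega)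
  have c1 := chain hn h1 h2
  have c2 := chain hn h1.swap h2.swap
  simp only [Nat.zero_add] at a
  by_cases hv : 1 ≤ v 1 0
  · have := c1 hv
    omega
  · by_cases hh : 1 ≤ h 0 1
    · have := c2 hh
      omega
    · omega

lemma corner' {n : ℕ} (hn : 3 ≤ n) {h v : ℕ → ℕ → ℕ} (h1 : One n h v) (h2 : Two n h v) :
    1 ≤ h (n - 1) 0 + v n 0 + v n 1 + h 1 n + h (n - 2) 0 + v 0 (n - 2) := by
  have := corner hn h1.mirror h2.mirror
  have e1 : n - 1 - 0 = n - 1 := by omega
  have e2 : n - 0 = n := by omega
  have e3 : n - 1 - (n - 2) = 1 := by omega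
  have e4 : n - 1 - 1 = n - 2 := by omega
  have e5 : n - n = 0 := by omega
  rw [e1, e2, e3, e4, e5] at this
  exact this

/-- contradiction when there is only one boundary segment -/
lemma no_perfect {n : ℕ} (hn : 3 ≤ n) {h v : ℕ → ℕ → ℕ} (h1 : One n h v) (h2 : Two n h v)
    (hB : ∑ t ∈ Finset.range n, (h t 0 + h t n + v 0 t + v n t) = 1) : False := by
  have c1 := corner hn h1 h2
  have c2 := corner' hn h1 h2
  rcases Nat.eq_or_lt_of_le hn with h3 | h4
  · subst h3
    simp only [Finset.sum_range_succ, Finset.sum_range_zero, Nat.reduceSub] at *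
    have a00 := h1 0 0 (by omega) (by omega)
    have a01 := h1 0 1 (by omega) (by omega)
    have a02 := h1 0 2 (by omega) (by omega)
    have a10 := h1 1 0 (by omega) (by omega)
    have a11 := h1 1 1 (by omega) (by omega)
    have a12 := h1 1 2 (by omega) (by omega)
    have a20 := h1 2 0 (by omega) (by omega)
    have a21 := h1 2 1 (by omega) (by omega)
    have a22 := h1 2 2 (by omega) (by omega)
    simp only [Nat.reduceAdd, Nat.zero_add] at *
    omega
  · have hsub : ({0, 1, n - 2, n - 1} : Finset ℕ) ⊆ Finset.range n := by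
      intro t ht
      simp only [Finset.mem_insert, Finset.mem_singleton] at ht
      rw [Finset.mem_range]
      omega
    have hle := Finset.sum_le_sum_of_subset (f := fun t => h t 0 + h t n + v 0 t + v n t) hsub
    rw [hB] at hle
    rw [Finset.sum_insert, Finset.sum_insert, Finset.sum_insert, Finset.sum_singleton] at hle
    · omega
    · simp only [Finset.mem_singleton]; omega
    · simp only [Finset.mem_insert, Finset.mem_singleton]; omega
    · simp only [Finset.mem_insert, Finset.mem_singleton]; omega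

end Pool.Agent.NH73.SG
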