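import Mathlib

/-! Unit segments of the square grid and the squares they bound. -/

namespace Pool.Agent.NH73.SG

open Finset

/-- A unit segment of the lattice: `(true, x, y)` joins the points `(x,y)` and `(x+1,y)`,
`(false, x, y)` joins the points `(x,y)` and `(x,y+1)`. -/
abbrev Seg : Type := Bool × ℕ × ℕ

/-- The unit segments of the `n × n` board, i.e. those with both end points in `{0,...,n}^2`. -/
def E (n : ℕ) : Finset Seg :=
  (range n ×ˢ range (n + 1)).image (fun p => (true, p.1, p.2)) ∪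
    (range (n + 1) ×ˢ range n).image (fun p => (false, p.1, p.2))

/-- The `4k` unit segments on the boundary of the square `[a,a+k] × [b,b+k]`. -/
def boundary (a b k : ℕ) : Finset Seg :=
  (range k).biUnion (fun t => {(true, a + t, b), (true, a + t, b + k),
    (false, a, b + t), (false, a + k, b + t)})

/-- `R` is a set of unit segments of the `n × n` board that destroys all squares of the board:
the boundary of every square `[a,a+k] × [b,b+k]`, `1 ≤ k ≤ n`, `0 ≤ a, b ≤ n-k`, contains a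
segment of `R`. -/
def Destroys (n : ℕ) (R : Finset Seg) : Prop :=
  R ⊆ E n ∧ ∀ k a b : ℕ, 1 ≤ k → a + k ≤ n → b + k ≤ n → ∃ s ∈ R, s ∈ boundary a b k

/-- The smallest number of segments that destroy all squares of the `n × n` board. -/
noncomputable def f (n : ℕ) : ℕ := sInf {r | ∃ R : Finset Seg, Destroys n R ∧ R.card = r}

/-- Translation of a segment by the vector `(1,1)`. -/
def shift (s : Seg) : Seg := (s.1, s.2.1 + 1, s.2.2 + 1)

/-- The segments used in the outermost layer of the spiral on the `N × N` board, `N ≥ 3`. -/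
def ring (N : ℕ) : Finset Seg :=
  {(true, 1, 0), (true, 2, 1)} ∪
    (range ((N + 1) / 2 - 2)).image (fun i => (false, 2 * i + 4, 0)) ∪
    (range (N / 2)).image (fun i => (true, N - 1, N - 1 - 2 * i)) ∪
    (range ((N - 1) / 2)).image (fun i => (false, N - 2 - 2 * i, N - 1)) ∪
    (range (N / 2)).image (fun i => (true, 0, 2 * i + 1))

/-- The explicit construction: a spiral on the `n × n` board, obtained from the one on the
`(n-2) × (n-2)` board placed in the centre by adding an outermost layer. -/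
def spiral : ℕ → Finset Seg
  | 0 => ∅
  | 1 => {(true, 0, 0)}
  | 2 => {(true, 1, 0), (true, 0, 1), (true, 1, 1)}
  | (N + 3) => (spiral (N + 1)).image shift ∪ ring (N + 3)

lemma mem_boundary {a b k : ℕ} {s : Seg} :
    s ∈ boundary a b k ↔ (s.1 = true ∧ a ≤ s.2.1 ∧ s.2.1 < a + k ∧ (s.2.2 = b ∨ s.2.2 = b + k)) ∨
      (s.1 = false ∧ b ≤ s.2.2 ∧ s.2.2 < b + k ∧ (s.2.1 = a ∨ s.2.1 = a + k)) := by
  obtain ⟨c, x, y⟩ := s
  simp only [boundary, mem_biUnion, mem_range, mem_insert, mem_singleton, Prod.mk.injEq]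
  constructor
  · rintro ⟨t, ht, ⟨rfl, rfl, rfl⟩ | ⟨rfl, rfl, rfl⟩ | ⟨rfl, rfl, rfl⟩ | ⟨rfl, rfl, rfl⟩⟩
    · left; exact ⟨rfl, by omega, by omega, Or.inl rfl⟩
    · left; exact ⟨rfl, by omega, by omega, Or.inr rfl⟩
    · right; exact ⟨rfl, by omega, by omega, Or.inl rfl⟩
    · right; exact ⟨rfl, by omega, by omega, Or.inr rfl⟩
  · rintro (⟨rfl, h1, h2, h3 | h3⟩ | ⟨rfl, h1, h2, h3 | h3⟩)
    · exact ⟨x - a, by omega, Or.inl ⟨rfl, by omega, h3⟩⟩
    · exact ⟨x - a, by omega, Or.inr (Or.inl ⟨rfl, by omega, h3⟩)⟩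
    · exact ⟨y - b, by omega, Or.inr (Or.inr (Or.inl ⟨rfl, h3, by omega⟩))⟩
    · exact ⟨y - b, by omega, Or.inr (Or.inr (Or.inr ⟨rfl, h3, by omega⟩))⟩

lemma mem_E {n : ℕ} {s : Seg} :
    s ∈ E n ↔ (s.1 = true ∧ s.2.1 < n ∧ s.2.2 ≤ n) ∨ (s.1 = false ∧ s.2.1 ≤ n ∧ s.2.2 < n) := by
  obtain ⟨c, x, y⟩ := s
  simp only [E, mem_union, mem_image, mem_product, mem_range, Prod.mk.injEq, Prod.exists]
  constructor
  · rintro (⟨p, q, ⟨h1, h2⟩, rfl, rfl, rfl⟩ | ⟨p, q, ⟨h1, h2⟩, rfl, rfl, rfl⟩)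
    · left; exact ⟨rfl, h1, by omega⟩
    · right; exact ⟨rfl, by omega, h2⟩
  · rintro (⟨rfl, h1, h2⟩ | ⟨rfl, h1, h2⟩)
    · left; exact ⟨x, y, ⟨h1, by omega⟩, rfl, rfl, rfl⟩
    · right; exact ⟨x, y, ⟨by omega, h2⟩, rfl, rfl, rfl⟩

end Pool.Agent.NH73.SG
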