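import Pool.Agent.NH73.SG.Upper

namespace Pool.Agent.NH73.SG

open Finset

lemma ring_sub_spiral {N : ℕ} (hN : 3 ≤ N) {s : Seg} (hs : s ∈ ring N) : s ∈ spiral N := by
  obtain ⟨M, rfl⟩ := Nat.exists_eq_add_of_le' hN
  rw [spiral_succ]
  exact mem_union_right _ hs

lemma shift_mem {N : ℕ} (hN : 3 ≤ N) {s : Seg} (hs : s ∈ spiral (N - 2)) : shift s ∈ spiral N := by
  obtain ⟨M, rfl⟩ := Nat.exists_eq_add_of_le' hN
  rw [spiral_succ]
  exact mem_union_left _ (mem_image_of_mem _ hs)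

lemma third {N : ℕ} (hN : 6 ≤ N) (h2 : N % 2 = 0) : (true, 2, N - 3) ∈ spiral N := by
  rcases Nat.eq_or_lt_of_le hN with h | h
  · subst h; decide
  · have h8 : 8 ≤ N := by omega
    have a : (true, 0, N - 5) ∈ spiral (N - 4) :=
      ring_sub_spiral (by omega) (r6 (by omega) (by omega))
    have b : shift (true, 0, N - 5) ∈ spiral (N - 2) := by
      apply shift_mem (by omega)
      have : N - 2 - 2 = N - 4 := by omega
      rw [this]; exact a
    have c : shift (shift (true, 0, N - 5)) ∈ spiral N := shift_mem (by omega) b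
    have e : shift (shift (true, 0, N - 5)) = (true, 2, N - 3) := by
      simp only [shift, Prod.mk.injEq, true_and]
      omega
    rwa [e] at c

/-- Membership facts for the two outermost layers. -/
lemma o1 {N : ℕ} (h : 3 ≤ N) : (true, 1, 0) ∈ spiral N := ring_sub_spiral h (r1 N)

lemma o2 {N : ℕ} (h : 3 ≤ N) : (true, 2, 1) ∈ spiral N := ring_sub_spiral h (r2 N)

lemma o3 {N x : ℕ} (h : 3 ≤ N) (p : x % 2 = 0) (q : 4 ≤ x) (r : x < N) : (false, x, 0) ∈ spiral N :=
  ring_sub_spiral h (r3 p q r)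

lemma o4 {N y : ℕ} (h : 3 ≤ N) (p : 1 ≤ y) (q : y < N) (r : (y + N) % 2 = 1) :
    (true, N - 1, y) ∈ spiral N :=
  ring_sub_spiral h (r4 p q r)

lemma o5 {N x : ℕ} (h : 3 ≤ N) (p : 1 ≤ x) (q : x < N) (r : (x + N) % 2 = 0) :
    (false, x, N - 1) ∈ spiral N :=
  ring_sub_spiral h (r5 p q r)

lemma o6 {N y : ℕ} (h : 3 ≤ N) (p : y % 2 = 1) (q : y < N) : (true, 0, y) ∈ spiral N :=
  ring_sub_spiral h (r6 p q)

lemma i2 {N : ℕ} (h : 5 ≤ N) : (true, 3, 2) ∈ spiral N :=
  shift_mem (by omega) (ring_sub_spiral (by omega) (r2 (N - 2)))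

lemma i3 {N x : ℕ} (h : 5 ≤ N) (p : x % 2 = 1) (q : 5 ≤ x) (r : x < N - 1) :
    (false, x, 1) ∈ spiral N := by
  have := shift_mem (N := N) (by omega) (ring_sub_spiral (N := N - 2) (by omega)
      (r3 (x := x - 1) (by omega) (by omega) (by omega)))
  have e : shift (false, x - 1, 0) = (false, x, 1) := by
    simp only [shift, Prod.mk.injEq, true_and, zero_add, and_true]; omega
  rwa [e] at this

lemma i4 {N y : ℕ} (h : 5 ≤ N) (p : 2 ≤ y) (q : y < N - 1) (r : (y + N) % 2 = 0) :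
    (true, N - 2, y) ∈ spiral N := by
  have := shift_mem (N := N) (by omega) (ring_sub_spiral (N := N - 2) (by omega)
      (r4 (N := N - 2) (y := y - 1) (by omega) (by omega) (by omega)))
  have e : shift (true, N - 2 - 1, y - 1) = (true, N - 2, y) := by
    simp only [shift, Prod.mk.injEq, true_and]; omega
  rwa [e] at this

lemma i5 {N x : ℕ} (h : 5 ≤ N) (p : 2 ≤ x) (q : x < N - 1) (r : (x + N) % 2 = 1) :
    (false, x, N - 2) ∈ spiral N := by
  have := shift_mem (N := N) (by omega) (ring_sub_spiral (N := N - 2) (by omega)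
      (r5 (N := N - 2) (x := x - 1) (by omega) (by omega) (by omega)))
  have e : shift (false, x - 1, N - 2 - 1) = (false, x, N - 2) := by
    simp only [shift, Prod.mk.injEq, true_and]; omega
  rwa [e] at this

lemma i6 {N y : ℕ} (h : 5 ≤ N) (p : y % 2 = 0) (q : 2 ≤ y) (r : y < N - 1) :
    (true, 1, y) ∈ spiral N := by
  have := shift_mem (N := N) (by omega) (ring_sub_spiral (N := N - 2) (by omega)
      (r6 (N := N - 2) (y := y - 1) (by omega) (by omega)))
  have e : shift (true, 0, y - 1) = (true, 1, y) := by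
    simp only [shift, Prod.mk.injEq, true_and]; omega
  rwa [e] at this

lemma wH {N a b k x y : ℕ} (hm : (true, x, y) ∈ spiral N) (h1 : a ≤ x) (h2 : x < a + k)
    (h3 : y = b ∨ y = b + k) : ∃ s ∈ spiral N, s ∈ boundary a b k :=
  ⟨_, hm, mem_boundary.2 (Or.inl ⟨rfl, h1, h2, h3⟩)⟩

lemma wV {N a b k x y : ℕ} (hm : (false, x, y) ∈ spiral N) (h1 : b ≤ y) (h2 : y < b + k)
    (h3 : x = a ∨ x = a + k) : ∃ s ∈ spiral N, s ∈ boundary a b k :=
  ⟨_, hm, mem_boundary.2 (Or.inr ⟨rfl, h1, h2, h3⟩)⟩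

lemma touch_left {N : ℕ} (hN : 5 ≤ N) {k b : ℕ} (hk : 1 ≤ k) (hb : b + k ≤ N) :
    ∃ s ∈ spiral N, s ∈ boundary 0 b k := by
  have h3 : 3 ≤ N := by omega
  by_cases c1 : b % 2 = 1
  · exact wH (o6 h3 c1 (by omega)) (by omega) (by omega) (Or.inl rfl)
  by_cases c2 : (b + k) % 2 = 1 ∧ b + k < N
  · exact wH (o6 h3 c2.1 c2.2) (by omega) (by omega) (Or.inr rfl)
  by_cases c3 : 2 ≤ k
  · by_cases c4 : 2 ≤ b
    · exact wH (i6 hN (by omega) c4 (by omega)) (by omega) (by omega) (Or.inl rfl)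
    · exact wH (o1 h3) (by omega) (by omega) (Or.inl (by omega))
  · exact wV (o5 (x := 1) h3 le_rfl (by omega) (by omega)) (by omega) (by omega)
      (Or.inr (by omega))

lemma touch_right {N : ℕ} (hN : 5 ≤ N) {k a b : ℕ} (hk : 1 ≤ k) (ha : a + k = N)
    (hb : b + k ≤ N) : ∃ s ∈ spiral N, s ∈ boundary a b k := by
  have h3 : 3 ≤ N := by omega
  by_cases c1 : 1 ≤ b ∧ (b + N) % 2 = 1
  · exact wH (o4 h3 c1.1 (by omega) c1.2) (by omega) (by omega) (Or.inl rfl)
  by_cases c2 : b + k < N ∧ (b + k + N) % 2 = 1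
  · exact wH (o4 h3 (by omega) c2.1 c2.2) (by omega) (by omega) (Or.inr rfl)
  by_cases c3 : 2 ≤ k
  · by_cases c4 : 2 ≤ b
    · exact wH (i4 hN c4 (by omega) (by omega)) (by omega) (by omega) (Or.inl rfl)
    by_cases c5 : b + k < N
    · exact wH (i4 hN (y := b + k) (by omega) (by omega) (by omega)) (by omega) (by omega)
        (Or.inr rfl)
    by_cases c6 : b = 0
    · exact wH (o1 h3) (by omega) (by omega) (Or.inl (by omega))
    · exact wH (o2 h3) (by omega) (by omega) (Or.inl (by omega))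
  · exact wV (o3 (x := N - 1) h3 (by omega) (by omega) (by omega)) (by omega) (by omega)
      (Or.inl (by omega))

lemma touch_bottom {N : ℕ} (hN : 5 ≤ N) {k a : ℕ} (hk : 1 ≤ k) (ha : a + k ≤ N) :
    ∃ s ∈ spiral N, s ∈ boundary a 0 k := by
  have h3 : 3 ≤ N := by omega
  by_cases e0 : a = 0
  · subst e0; exact touch_left hN hk (by omega)
  by_cases e1 : a + k = N
  · exact touch_right hN hk e1 (by omega)
  by_cases c0 : a ≤ 1
  · exact wH (o1 h3) (by omega) (by omega) (Or.inl rfl)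
  by_cases c1 : a % 2 = 0 ∧ 4 ≤ a
  · exact wV (o3 h3 c1.1 c1.2 (by omega)) (by omega) (by omega) (Or.inl rfl)
  by_cases c2 : (a + k) % 2 = 0
  · exact wV (o3 h3 c2 (by omega) (by omega)) (by omega) (by omega) (Or.inr rfl)
  by_cases c3 : a = 2
  · subst c3
    by_cases c4 : k = 1
    · subst c4; exact wH (o2 h3) (by omega) (by omega) (Or.inr (by omega))
    by_cases c5 : 2 + k < N - 1
    · exact wV (i3 hN (x := 2 + k) (by omega) (by omega) c5) (by omega) (by omega) (Or.inr rfl)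
    · exact wH (third (N := N) (by omega) (by omega)) (by omega) (by omega) (Or.inr (by omega))
  by_cases c6 : 5 ≤ a
  · exact wV (i3 hN (x := a) (by omega) c6 (by omega)) (by omega) (by omega) (Or.inl rfl)
  have c7 : a = 3 := by omega
  subst c7
  by_cases c8 : k = 2
  · subst c8; exact wH (i2 hN) (by omega) (by omega) (Or.inr (by omega))
  by_cases c9 : 3 + k < N - 1
  · exact wV (i3 hN (x := 3 + k) (by omega) (by omega) c9) (by omega) (by omega) (Or.inr rfl)
  · exact wH (i4 hN (y := k) (by omega) (by omega) (by omega)) (by omega) (by omega)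
      (Or.inr (by omega))

lemma touch_top {N : ℕ} (hN : 5 ≤ N) {k a b : ℕ} (hk : 1 ≤ k) (ha : a + k ≤ N)
    (hb : b + k = N) : ∃ s ∈ spiral N, s ∈ boundary a b k := by
  have h3 : 3 ≤ N := by omega
  by_cases e0 : a = 0
  · subst e0; exact touch_left hN hk (by omega)
  by_cases e1 : a + k = N
  · exact touch_right hN hk e1 (by omega)
  by_cases c1 : (a + N) % 2 = 0
  · exact wV (o5 h3 (by omega) (by omega) c1) (by omega) (by omega) (Or.inl rfl)
  by_cases c2 : (a + k + N) % 2 = 0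
  · exact wV (o5 h3 (by omega) (by omega) c2) (by omega) (by omega) (Or.inr rfl)
  by_cases c3 : 2 ≤ a
  · exact wV (i5 hN c3 (by omega) (by omega)) (by omega) (by omega) (Or.inl rfl)
  by_cases c4 : a + k < N - 1
  · exact wV (i5 hN (x := a + k) (by omega) c4 (by omega)) (by omega) (by omega) (Or.inr rfl)
  · exact wH (i6 hN (y := 2) (by omega) (by omega) (by omega)) (by omega) (by omega)
      (Or.inl (by omega))

lemma touch {N : ℕ} (hN : 5 ≤ N) {k a b : ℕ} (hk : 1 ≤ k) (ha : a + k ≤ N) (hb : b + k ≤ N)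
    (ht : a = 0 ∨ b = 0 ∨ a + k = N ∨ b + k = N) : ∃ s ∈ spiral N, s ∈ boundary a b k := by
  rcases ht with h | h | h | h
  · subst h; exact touch_left hN hk hb
  · subst h; exact touch_bottom hN hk ha
  · exact touch_right hN hk h hb
  · exact touch_top hN hk ha h

lemma small {N : ℕ} (h1 : 1 ≤ N) (h4 : N ≤ 4) : ∀ k ∈ range 5, ∀ a ∈ range 5, ∀ b ∈ range 5,
    (1 ≤ k ∧ a + k ≤ N ∧ b + k ≤ N → (spiral N ∩ boundary a b k).Nonempty) := by
  interval_cases N <;> decide +kernel

lemma destroys_spiral : ∀ N : ℕ, 1 ≤ N → Destroys N (spiral N) := by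
  intro N
  induction N using Nat.strong_induction_on with
  | _ N ih =>
    intro h1
    refine ⟨spiral_sub N, ?_⟩
    intro k a b hk ha hb
    by_cases h4 : N ≤ 4
    · obtain ⟨s, hs⟩ := small h1 h4 k (mem_range.2 (by omega)) a (mem_range.2 (by omega)) b
        (mem_range.2 (by omega)) ⟨hk, ha, hb⟩
      exact ⟨s, (mem_inter.1 hs).1, (mem_inter.1 hs).2⟩
    by_cases ht : a = 0 ∨ b = 0 ∨ a + k = N ∨ b + k = N
    · exact touch (by omega) hk ha hb ht
    · obtain ⟨s, hs, hm⟩ := (ih (N - 2) (by omega) (by omega)).2 k (a - 1) (b - 1) hk (by omega)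
        (by omega)
      refine ⟨shift s, shift_mem (by omega) hs, ?_⟩
      rw [mem_boundary] at hm ⊢
      simp only [shift]
      rcases hm with ⟨p, q, r, t⟩ | ⟨p, q, r, t⟩
      · left; exact ⟨p, by omega, by omega, by omega⟩
      · right; exact ⟨p, by omega, by omega, by omega⟩

end Pool.Agent.NH73.SG
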