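import Pool.Agent.NH73.SG.Defs
import Pool.Agent.NH73.SG.Chain

namespace Pool.Agent.NH73.SG

open Finset

lemma count_identity (n : ℕ) (h v : ℕ → ℕ → ℕ) :
    ∑ x ∈ range n, ∑ y ∈ range n, (h x y + h x (y + 1) + v x y + v (x + 1) y) +
      ∑ t ∈ range n, (h t 0 + h t n + v 0 t + v n t) =
    2 * (∑ x ∈ range n, ∑ y ∈ range (n + 1), h x y) +
      2 * (∑ y ∈ range n, ∑ x ∈ range (n + 1), v x y) := by
  have A1 : ∑ x ∈ range n, ∑ y ∈ range n, h x y + ∑ t ∈ range n, h t n =
      ∑ x ∈ range n, ∑ y ∈ range (n + 1), h x y := by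
    rw [← sum_add_distrib]
    exact sum_congr rfl (fun x _ => (sum_range_succ _ _).symm)
  have A2 : ∑ x ∈ range n, ∑ y ∈ range n, h x (y + 1) + ∑ t ∈ range n, h t 0 =
      ∑ x ∈ range n, ∑ y ∈ range (n + 1), h x y := by
    rw [← sum_add_distrib]
    exact sum_congr rfl (fun x _ => (sum_range_succ' _ _).symm)
  have A3 : ∑ x ∈ range n, ∑ y ∈ range n, v x y + ∑ t ∈ range n, v n t =
      ∑ y ∈ range n, ∑ x ∈ range (n + 1), v x y := by
    rw [sum_comm, ← sum_add_distrib]
    exact sum_congr rfl (fun x _ => (sum_range_succ _ _).symm)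
  have A4 : ∑ x ∈ range n, ∑ y ∈ range n, v (x + 1) y + ∑ t ∈ range n, v 0 t =
      ∑ y ∈ range n, ∑ x ∈ range (n + 1), v x y := by
    rw [sum_comm, ← sum_add_distrib]
    exact sum_congr rfl (fun y _ => (sum_range_succ' (fun x => v x y) n).symm)
  simp only [sum_add_distrib]
  linarith

/-- indicator of a horizontal segment -/
def hh (R : Finset Seg) (x y : ℕ) : ℕ := if (true, x, y) ∈ R then 1 else 0

/-- indicator of a vertical segment -/
def vv (R : Finset Seg) (x y : ℕ) : ℕ := if (false, x, y) ∈ R then 1 else 0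

lemma card_ge (n : ℕ) (R : Finset Seg) :
    (∑ x ∈ range n, ∑ y ∈ range (n + 1), hh R x y) +
      (∑ y ∈ range n, ∑ x ∈ range (n + 1), vv R x y) ≤ R.card := by
  have e1 : ∑ x ∈ range n, ∑ y ∈ range (n + 1), hh R x y =
      (((range n ×ˢ range (n + 1)).filter (fun p => (true, p.1, p.2) ∈ R)).image
        (fun p => ((true, p.1, p.2) : Seg))).card := by
    rw [card_image_of_injective, card_filter, sum_product]
    · rfl
    · intro p q h
      simp only [Prod.mk.injEq, true_and] at h
      exact Prod.ext h.1 h.2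
  have e2 : ∑ y ∈ range n, ∑ x ∈ range (n + 1), vv R x y =
      (((range n ×ˢ range (n + 1)).filter (fun p => (false, p.2, p.1) ∈ R)).image
        (fun p => ((false, p.2, p.1) : Seg))).card := by
    rw [card_image_of_injective, card_filter, sum_product]
    · rfl
    · intro p q h
      simp only [Prod.mk.injEq, true_and] at h
      exact Prod.ext h.2 h.1
  rw [e1, e2, ← card_union_of_disjoint]
  · apply card_le_card
    intro s hs
    rw [mem_union, mem_image, mem_image] at hs
    rcases hs with ⟨p, hp, rfl⟩ | ⟨p, hp, rfl⟩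
    · exact (mem_filter.1 hp).2
    · exact (mem_filter.1 hp).2
  · rw [Finset.disjoint_left]
    intro s hs hs'
    rw [mem_image] at hs hs'
    obtain ⟨p, _, rfl⟩ := hs
    obtain ⟨q, _, h⟩ := hs'
    simp at h

theorem lower {n : ℕ} (hn : 1 ≤ n) {R : Finset Seg} (hR : Destroys n R) :
    n ^ 2 + 1 ≤ 2 * R.card ∧ (3 ≤ n → 2 * R.card ≠ n ^ 2 + 1) := by
  set h := hh R with hh_def
  set v := vv R with vv_def
  have hid := count_identity n h v
  have hcard := card_ge n R
  rw [← hh_def, ← vv_def] at hcard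
  have hpos : ∀ x y, (true, x, y) ∈ R → h x y = 1 := fun x y hm => by
    rw [hh_def, hh, if_pos hm]
  have vpos : ∀ x y, (false, x, y) ∈ R → v x y = 1 := fun x y hm => by
    rw [vv_def, vv, if_pos hm]
  have hcell : ∀ x y, x < n → y < n → 1 ≤ h x y + h x (y + 1) + v x y + v (x + 1) y := by
    intro x y hx hy
    obtain ⟨⟨c, p, q⟩, hs, hb⟩ := hR.2 1 x y le_rfl (by omega) (by omega)
    rw [mem_boundary] at hb
    simp only at hb
    rcases hb with ⟨rfl, h1, h2, h3 | h3⟩ | ⟨rfl, h1, h2, h3 | h3⟩
    · have e : p = x := by omega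
      subst e; subst h3
      have := hpos _ _ hs
      omega
    · have e : p = x := by omega
      subst e; subst h3
      have := hpos _ _ hs
      omega
    · have e : q = y := by omega
      subst e; subst h3
      have := vpos _ _ hs
      omega
    · have e : q = y := by omega
      subst e; subst h3
      have := vpos _ _ hs
      omega
  have hbd : 1 ≤ ∑ t ∈ range n, (h t 0 + h t n + v 0 t + v n t) := by
    obtain ⟨⟨c, p, q⟩, hs, hb⟩ := hR.2 n 0 0 hn (by omega) (by omega)
    rw [mem_boundary] at hb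
    simp only at hb
    have hle : ∀ t ∈ range n, h t 0 + h t n + v 0 t + v n t ≤
        ∑ t ∈ range n, (h t 0 + h t n + v 0 t + v n t) :=
      fun t ht => single_le_sum (f := fun t => h t 0 + h t n + v 0 t + v n t)
        (fun _ _ => Nat.zero_le _) ht
    rcases hb with ⟨rfl, h1, h2, h3 | h3⟩ | ⟨rfl, h1, h2, h3 | h3⟩
    · subst h3
      have := hpos _ _ hs
      have := hle p (mem_range.2 (by omega))
      omega
    · rw [zero_add] at h3
      subst h3
      have := hpos _ _ hs
      have := hle p (mem_range.2 (by omega))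
      omega
    · subst h3
      have := vpos _ _ hs
      have := hle q (mem_range.2 (by omega))
      omega
    · rw [zero_add] at h3
      subst h3
      have := vpos _ _ hs
      have := hle q (mem_range.2 (by omega))
      omega
  have hsum : n ^ 2 ≤ ∑ x ∈ range n, ∑ y ∈ range n,
      (h x y + h x (y + 1) + v x y + v (x + 1) y) := by
    calc n ^ 2 = ∑ x ∈ range n, ∑ y ∈ range n, 1 := by
          simp [pow_two]
      _ ≤ _ := sum_le_sum (fun x hx => sum_le_sum
          (fun y hy => hcell x y (mem_range.1 hx) (mem_range.1 hy)))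
  refine ⟨by omega, ?_⟩
  intro h3 heq
  have hB : ∑ t ∈ range n, (h t 0 + h t n + v 0 t + v n t) = 1 := by omega
  have hD : ∑ x ∈ range n, ∑ y ∈ range n,
      (h x y + h x (y + 1) + v x y + v (x + 1) y) = n ^ 2 := by omega
  have hOne : One n h v := by
    have hD' : ∑ p ∈ range n ×ˢ range n,
        (h p.1 p.2 + h p.1 (p.2 + 1) + v p.1 p.2 + v (p.1 + 1) p.2) =
        ∑ _p ∈ range n ×ˢ range n, 1 := by
      rw [sum_product, hD]
      simp [pow_two]
    intro x y hx hy
    have hle : ∀ p ∈ range n ×ˢ range n,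
        1 ≤ (h p.1 p.2 + h p.1 (p.2 + 1) + v p.1 p.2 + v (p.1 + 1) p.2) := by
      intro p hp
      rw [mem_product] at hp
      exact hcell _ _ (mem_range.1 hp.1) (mem_range.1 hp.2)
    have := (sum_eq_sum_iff_of_le hle).1 hD'.symm (x, y)
      (mem_product.2 ⟨mem_range.2 hx, mem_range.2 hy⟩)
    exact this.symm
  have hTwo : Two n h v := by
    intro x y hx hy
    obtain ⟨⟨c, p, q⟩, hs, hb⟩ := hR.2 2 x y (by norm_num) hx hy
    rw [mem_boundary] at hb
    simp only at hb
    rcases hb with ⟨rfl, h1, h2, h3 | h3⟩ | ⟨rfl, h1, h2, h3 | h3⟩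
    · have := hpos _ _ hs
      subst h3
      have e : p = x ∨ p = x + 1 := by omega
      rcases e with rfl | rfl <;> omega
    · have := hpos _ _ hs
      subst h3
      have e : p = x ∨ p = x + 1 := by omega
      rcases e with rfl | rfl <;> omega
    · have := vpos _ _ hs
      subst h3
      have e : q = y ∨ q = y + 1 := by omega
      rcases e with rfl | rfl <;> omega
    · have := vpos _ _ hs
      subst h3
      have e : q = y ∨ q = y + 1 := by omega
      rcases e with rfl | rfl <;> omega
  exact no_perfect h3 hOne hTwo hB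

end Pool.Agent.NH73.SG
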