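import Pool.Agent.NH73.SG.Defs

namespace Pool.Agent.NH73.SG

open Finset

lemma r1 (N : ℕ) : (true, 1, 0) ∈ ring N := by simp [ring]

lemma r2 (N : ℕ) : (true, 2, 1) ∈ ring N := by simp [ring]

lemma r3 {N x : ℕ} (h1 : x % 2 = 0) (h2 : 4 ≤ x) (h3 : x < N) : (false, x, 0) ∈ ring N := by
  simp only [ring, mem_union, mem_image, mem_range]
  refine Or.inl (Or.inl (Or.inl (Or.inr ⟨(x - 4) / 2, by omega, ?_⟩)))
  simp only [Prod.mk.injEq, true_and, and_true]
  omega

lemma r4 {N y : ℕ} (h1 : 1 ≤ y) (h2 : y < N) (h3 : (y + N) % 2 = 1) :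
    (true, N - 1, y) ∈ ring N := by
  simp only [ring, mem_union, mem_image, mem_range]
  refine Or.inl (Or.inl (Or.inr ⟨(N - 1 - y) / 2, by omega, ?_⟩))
  simp only [Prod.mk.injEq, true_and]
  omega

lemma r5 {N x : ℕ} (h1 : 1 ≤ x) (h2 : x < N) (h3 : (x + N) % 2 = 0) :
    (false, x, N - 1) ∈ ring N := by
  simp only [ring, mem_union, mem_image, mem_range]
  refine Or.inl (Or.inr ⟨(N - 2 - x) / 2, by omega, ?_⟩)
  simp only [Prod.mk.injEq, true_and, and_true]
  omega

lemma r6 {N y : ℕ} (h1 : y % 2 = 1) (h2 : y < N) : (true, 0, y) ∈ ring N := by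
  simp only [ring, mem_union, mem_image, mem_range]
  refine Or.inr ⟨(y - 1) / 2, by omega, ?_⟩
  simp only [Prod.mk.injEq, true_and]
  omega

lemma ring_sub {N : ℕ} (hN : 3 ≤ N) : ring N ⊆ E N := by
  intro s hs
  simp only [ring, mem_union, mem_image, mem_range, mem_insert, mem_singleton] at hs
  rw [mem_E]
  rcases hs with (((((rfl | rfl) | ⟨i, hi, rfl⟩) | ⟨i, hi, rfl⟩) | ⟨i, hi, rfl⟩) | ⟨i, hi, rfl⟩)
  · left; exact ⟨rfl, by simp only; omega, by simp only; omega⟩
  · left; exact ⟨rfl, by simp only; omega, by simp only; omega⟩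
  · right; exact ⟨rfl, by simp only; omega, by simp only; omega⟩
  · left; exact ⟨rfl, by simp only; omega, by simp only; omega⟩
  · right; exact ⟨rfl, by simp only; omega, by simp only; omega⟩
  · left; exact ⟨rfl, by simp only; omega, by simp only; omega⟩

lemma spiral_succ (N : ℕ) : spiral (N + 3) = (spiral (N + 1)).image shift ∪ ring (N + 3) := by
  rw [spiral]

lemma spiral_sub : ∀ N : ℕ, spiral N ⊆ E N
  | 0 => by simp [spiral]
  | 1 => by decide
  | 2 => by decide
  | (N + 3) => by
    rw [spiral_succ]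
    apply union_subset
    · intro s hs
      rw [mem_image] at hs
      obtain ⟨t, ht, rfl⟩ := hs
      have := mem_E.1 (spiral_sub (N + 1) ht)
      rw [mem_E]
      simp only [shift]
      rcases this with ⟨h1, h2, h3⟩ | ⟨h1, h2, h3⟩
      · left; exact ⟨h1, by omega, by omega⟩
      · right; exact ⟨h1, by omega, by omega⟩
    · exact ring_sub (by omega)

lemma mem_spiral_one {N : ℕ} (hN : 2 ≤ N) : (true, 1, 0) ∈ spiral N := by
  match N with
  | 2 => decide
  | (N + 3) =>
    rw [spiral_succ]
    exact mem_union_right _ (r1 _)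

/-- the ring without the segment joining it to the inner part -/
lemma card_ring (N : ℕ) (hN : 3 ≤ N) : ((ring N).erase (true, 2, 1)).card ≤ 2 * N - 2 := by
  have hsub : (ring N).erase (true, 2, 1) ⊆ {(true, 1, 0)} ∪
      (range ((N + 1) / 2 - 2)).image (fun i => (false, 2 * i + 4, 0)) ∪
      (range (N / 2)).image (fun i => (true, N - 1, N - 1 - 2 * i)) ∪
      (range ((N - 1) / 2)).image (fun i => (false, N - 2 - 2 * i, N - 1)) ∪
      (range (N / 2)).image (fun i => (true, 0, 2 * i + 1)) := by
    intro s hs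
    rw [mem_erase] at hs
    obtain ⟨h1, h2⟩ := hs
    simp only [ring, mem_union, mem_insert, mem_singleton] at h2 ⊢
    tauto
  refine (card_le_card hsub).trans ?_
  refine (card_union_le _ _).trans ?_
  have a1 : ((range (N / 2)).image (fun i => ((true, 0, 2 * i + 1) : Seg))).card ≤ N / 2 :=
    card_image_le.trans (by rw [card_range])
  have a2 : ((range ((N - 1) / 2)).image
      (fun i => ((false, N - 2 - 2 * i, N - 1) : Seg))).card ≤ (N - 1) / 2 :=
    card_image_le.trans (by rw [card_range])
  have a3 : ((range (N / 2)).image (fun i => ((true, N - 1, N - 1 - 2 * i) : Seg))).card ≤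
      N / 2 := card_image_le.trans (by rw [card_range])
  have a4 : ((range ((N + 1) / 2 - 2)).image (fun i => ((false, 2 * i + 4, 0) : Seg))).card ≤
      (N + 1) / 2 - 2 := card_image_le.trans (by rw [card_range])
  have b1 := card_union_le ({(true, 1, 0)} ∪
      (range ((N + 1) / 2 - 2)).image (fun i => ((false, 2 * i + 4, 0) : Seg)) ∪
      (range (N / 2)).image (fun i => (true, N - 1, N - 1 - 2 * i)))
      ((range ((N - 1) / 2)).image (fun i => (false, N - 2 - 2 * i, N - 1)))
  have b2 := card_union_le ({(true, 1, 0)} ∪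
      (range ((N + 1) / 2 - 2)).image (fun i => ((false, 2 * i + 4, 0) : Seg)))
      ((range (N / 2)).image (fun i => (true, N - 1, N - 1 - 2 * i)))
  have b3 := card_union_le ({(true, 1, 0)} : Finset Seg)
      ((range ((N + 1) / 2 - 2)).image (fun i => ((false, 2 * i + 4, 0) : Seg)))
  rw [card_singleton] at b3
  omega

lemma card_spiral : ∀ N : ℕ, 2 ≤ N → (spiral N).card ≤ (N ^ 2 + 1) / 2 + 1
  | 0, h => by omega
  | 1, h => by omega
  | 2, _ => by decide
  | 3, _ => by decide
  | (N + 4), _ => by
    have ih := card_spiral (N + 2) (by omega)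
    have hsub : spiral (N + 4) ⊆ (spiral (N + 2)).image shift ∪
        (ring (N + 4)).erase (true, 2, 1) := by
      rw [show N + 4 = (N + 1) + 3 by ring, spiral_succ]
      intro s hs
      rw [mem_union] at hs ⊢
      rcases hs with h | h
      · left; exact h
      · by_cases he : s = (true, 2, 1)
        · left
          rw [he, mem_image]
          exact ⟨(true, 1, 0), mem_spiral_one (by omega), rfl⟩
        · right
          exact mem_erase.2 ⟨he, h⟩
    have h1 := card_le_card hsub
    have h2 := card_union_le ((spiral (N + 2)).image shift) ((ring (N + 4)).erase (true, 2, 1))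
    have h3 : ((spiral (N + 2)).image shift).card ≤ (spiral (N + 2)).card := card_image_le
    have h4 := card_ring (N + 4) (by omega)
    have e : (N + 4) ^ 2 + 1 = (N + 2) ^ 2 + 1 + 2 * (2 * N + 6) := by ring
    rw [e, Nat.add_mul_div_left _ _ (by norm_num)]
    omega

end Pool.Agent.NH73.SG
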